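import Mathlib

/-!
# Red-blue colourings of 17 vertices without monochromatic K4 (MP_9b343c_co)

`r` is a symmetric relation (the red pairs). `nb r x`: the red neighbours. `r33`, `r34`: R(3,3) <= 6
and R(3,4) <= 9. `no_flip`: in a colouring of 17 vertices without monochromatic K4 no red pair can be
exchanged with a blue pair such that the red graph stays free of K4.
-/

set_option autoImplicit false

open Classical

namespace Pool.Agent.H70.CG

variable {V : Type} {r : V → V → Prop}

/-- no red triangle in `S` -/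
def T3 (r : V → V → Prop) (S : Finset V) : Prop :=
  ∀ a ∈ S, ∀ b ∈ S, ∀ c ∈ S, a ≠ b → a ≠ c → b ≠ c → r a b → r a c → ¬ r b c

/-- no red K4 in `S` -/
def T4 (r : V → V → Prop) (S : Finset V) : Prop :=
  ∀ a ∈ S, T3 r (S.filter fun b => b ≠ a ∧ r a b)

/-- the complement -/
def co (r : V → V → Prop) : V → V → Prop := fun a b => ¬ r a b

theorem T3.mono {S T : Finset V} (h : T3 r T) (hS : S ⊆ T) : T3 r S :=
  fun a ha b hb c hc => h a (hS ha) b (hS hb) c (hS hc)

theorem T4.mono {S T : Finset V} (h : T4 r T) (hS : S ⊆ T) : T4 r S :=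
  fun a ha => (h a (hS ha)).mono (Finset.filter_subset_filter _ hS)

theorem co_sym (hr : ∀ a b, r a b → r b a) : ∀ a b, co r a b → co r b a :=
  fun a b h h' => h (hr b a h')

private theorem three {S : Finset V} (h : 3 ≤ S.card) :
    ∃ a ∈ S, ∃ b ∈ S, ∃ c ∈ S, a ≠ b ∧ a ≠ c ∧ b ≠ c :=
  Finset.two_lt_card.1 (show 2 < S.card by omega)

/-- R(3,3) <= 6 -/
theorem r33 (hr : ∀ a b, r a b → r b a) {S : Finset V} (h : 6 ≤ S.card) (h1 : T3 r S)
    (h2 : T3 (co r) S) : False := by
  obtain ⟨x, hx⟩ : S.Nonempty := Finset.card_pos.1 (by omega)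
  have key : ∀ q : V → V → Prop, (∀ a b, q a b → q b a) → T3 q S → T3 (co q) S →
      ((S.erase x).filter fun b => q x b).card ≤ 2 := by
    intro q hq h1 h2
    by_contra hc
    obtain ⟨a, ha, b, hb, c, hc, hab, hac, hbc⟩ := three (by omega : 3 ≤
      ((S.erase x).filter fun b => q x b).card)
    rw [Finset.mem_filter, Finset.mem_erase] at ha hb hc
    have n1 := h1 x hx a ha.1.2 b hb.1.2 (Ne.symm ha.1.1) (Ne.symm hb.1.1) hab ha.2 hb.2
    have n2 := h1 x hx a ha.1.2 c hc.1.2 (Ne.symm ha.1.1) (Ne.symm hc.1.1) hac ha.2 hc.2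
    have n3 := h1 x hx b hb.1.2 c hc.1.2 (Ne.symm hb.1.1) (Ne.symm hc.1.1) hbc hb.2 hc.2
    exact h2 a ha.1.2 b hb.1.2 c hc.1.2 hab hac hbc n1 n2 n3
  have k1 := key r hr h1 h2
  have k2 := key (co r) (co_sym hr) h2 (by
    intro a ha b hb c hc hab hac hbc n1 n2 n3
    exact h1 a ha b hb c hc hab hac hbc (not_not.1 n1) (not_not.1 n2) (not_not.1 n3))
  have k3 := Finset.card_filter_add_card_filter_not (s := S.erase x) (fun b => r x b)
  rw [Finset.card_erase_of_mem hx] at k3
  have k4 : ((S.erase x).filter fun b => co r x b) = (S.erase x).filter fun b => ¬ r x b := by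
    ext b
    rw [Finset.mem_filter, Finset.mem_filter]
    exact Iff.rfl
  rw [k4] at k2
  omega

private theorem z2 (a : ZMod 2) : a + a = 0 := by
  revert a
  decide

/-- the handshake lemma -/
private theorem hand (hr : ∀ a b, r a b → r b a) (S : Finset V) :
    ((∑ x ∈ S, (S.filter fun b => b ≠ x ∧ r x b).card : ℕ) : ZMod 2) = 0 := by
  have h1 : (∑ x ∈ S, (S.filter fun b => b ≠ x ∧ r x b).card) =
      ((S ×ˢ S).filter fun p => p.2 ≠ p.1 ∧ r p.1 p.2).card := by
    rw [Finset.card_filter, Finset.sum_product]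
    refine Finset.sum_congr rfl fun x _ => ?_
    rw [Finset.card_filter]
  rw [h1, Finset.card_eq_sum_ones, Nat.cast_sum]
  refine Finset.sum_involution (fun p _ => p.swap) (fun p _ => z2 _) (fun p hp _ h => ?_)
    (fun p hp => ?_) (fun p _ => Prod.swap_swap p)
  · rw [Finset.mem_filter] at hp
    apply hp.2.1
    exact congrArg Prod.fst h
  · rw [Finset.mem_filter, Finset.mem_product] at hp ⊢
    exact ⟨⟨hp.1.2, hp.1.1⟩, Ne.symm hp.2.1, hr _ _ hp.2.2⟩

/-- R(3,4) <= 9 -/
theorem r34 (hr : ∀ a b, r a b → r b a) {S : Finset V} (h : 9 ≤ S.card) (h1 : T3 r S)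
    (h2 : T4 (co r) S) : False := by
  obtain ⟨S', hS', hc⟩ := Finset.exists_subset_card_eq h
  have g1 := h1.mono hS'
  have g2 := h2.mono hS'
  have hred : ∀ x ∈ S', (S'.filter fun b => b ≠ x ∧ r x b).card ≤ 3 := by
    intro x hx
    by_contra hcon
    obtain ⟨T, hT, hT4⟩ := Finset.exists_subset_card_eq (show 4 ≤
      (S'.filter fun b => b ≠ x ∧ r x b).card by omega)
    have hT2 : ∀ b ∈ T, b ∈ S' ∧ b ≠ x ∧ r x b := fun b hb => Finset.mem_filter.1 (hT hb)
    have hblue : ∀ a ∈ T, ∀ b ∈ T, a ≠ b → ¬ r a b := fun a ha b hb hab =>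
      g1 x hx a (hT2 a ha).1 b (hT2 b hb).1 (Ne.symm (hT2 a ha).2.1) (Ne.symm (hT2 b hb).2.1) hab
        (hT2 a ha).2.2 (hT2 b hb).2.2
    obtain ⟨a, ha⟩ : T.Nonempty := Finset.card_pos.1 (by omega)
    obtain ⟨b, hb, c, hc', d, hd, hbc, hbd, hcd⟩ := three (show 3 ≤ (T.erase a).card by
      rw [Finset.card_erase_of_mem ha]; omega)
    rw [Finset.mem_erase] at hb hc' hd
    have f : ∀ e, e ≠ a ∧ e ∈ T → e ∈ S'.filter fun b => b ≠ a ∧ co r a b := fun e he =>
      Finset.mem_filter.2 ⟨(hT2 e he.2).1, he.1, hblue a ha e he.2 (Ne.symm he.1)⟩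
    exact g2 a (hT2 a ha).1 b (f b hb) c (f c hc') d (f d hd) hbc hbd hcd
      (hblue b hb.2 c hc'.2 hbc) (hblue b hb.2 d hd.2 hbd) (hblue c hc'.2 d hd.2 hcd)
  have hblue : ∀ x ∈ S', (S'.filter fun b => b ≠ x ∧ co r x b).card ≤ 5 := by
    intro x hx
    by_contra hcon
    exact r33 hr (show 6 ≤ (S'.filter fun b => b ≠ x ∧ co r x b).card by omega)
      (g1.mono (Finset.filter_subset _ _)) (g2 x hx)
  have hsum : ∀ x ∈ S', (S'.filter fun b => b ≠ x ∧ r x b).card = 3 := by
    intro x hx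
    have k1 := hred x hx
    have k2 := hblue x hx
    have k3 := Finset.card_filter_add_card_filter_not (s := S'.erase x) (fun b => r x b)
    rw [Finset.card_erase_of_mem hx] at k3
    have e1 : (S'.erase x).filter (fun b => r x b) = S'.filter fun b => b ≠ x ∧ r x b := by
      ext b
      simp only [Finset.mem_filter, Finset.mem_erase]
      tauto
    have e2 : (S'.erase x).filter (fun b => ¬ r x b) = S'.filter fun b => b ≠ x ∧ co r x b := by
      ext b
      rw [Finset.mem_filter, Finset.mem_filter, Finset.mem_erase]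
      exact ⟨fun h => ⟨h.1.2, h.1.1, h.2⟩, fun h => ⟨⟨h.2.1, h.1⟩, h.2.2⟩⟩
    rw [e1, e2] at k3
    omega
  have h3 := hand hr S'
  rw [Finset.sum_congr rfl hsum, Finset.sum_const, hc] at h3
  revert h3
  decide

theorem co_co : co (co r) = r := by
  funext a b
  simp [co]

section seventeen

variable [Fintype V]

/-- neighbours -/
noncomputable def nb (r : V → V → Prop) (x : V) : Finset V :=
  Finset.univ.filter fun b => b ≠ x ∧ r x b

theorem mem_nb {x b : V} : b ∈ nb r x ↔ b ≠ x ∧ r x b := by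
  simp [nb]

theorem nb_T3 (h : T4 r Finset.univ) (x : V) : T3 r (nb r x) := h x (Finset.mem_univ x)

theorem nb_card_le (hr : ∀ a b, r a b → r b a) (h : T4 r Finset.univ)
    (h' : T4 (co r) Finset.univ) (x : V) : (nb r x).card ≤ 8 := by
  by_contra hc
  exact r34 hr (show 9 ≤ (nb r x).card by omega) (nb_T3 h x) (h'.mono (Finset.subset_univ _))

theorem nb_co (x : V) : (nb r x).card + (nb (co r) x).card + 1 = Fintype.card V := by
  have k3 := Finset.card_filter_add_card_filter_not (s := Finset.univ.erase x) (fun b => r x b)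
  rw [Finset.card_erase_of_mem (Finset.mem_univ x), Finset.card_univ] at k3
  have e1 : (Finset.univ.erase x).filter (fun b => r x b) = nb r x := by
    ext b
    simp [nb]
  have e2 : (Finset.univ.erase x).filter (fun b => ¬ r x b) = nb (co r) x := by
    ext b
    rw [Finset.mem_filter, Finset.mem_erase, mem_nb]
    exact ⟨fun h => ⟨h.1.1, h.2⟩, fun h => ⟨⟨h.1, Finset.mem_univ b⟩, h.2⟩⟩
  rw [e1, e2] at k3
  have : 0 < Fintype.card V := Fintype.card_pos_iff.2 ⟨x⟩
  omega

theorem nb_card (hr : ∀ a b, r a b → r b a) (h : T4 r Finset.univ)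
    (h' : T4 (co r) Finset.univ) (hV : Fintype.card V = 17) (x : V) :
    (nb r x).card = 8 ∧ (nb (co r) x).card = 8 := by
  have h1 := nb_card_le hr h h' x
  have h2 := nb_card_le (co_sym hr) h' (by rw [co_co]; exact h) x
  have h3 := nb_co (r := r) x
  omega

/-- the common neighbours of a red pair -/
theorem cod_red (h : T4 r Finset.univ)
    (h' : T4 (co r) Finset.univ) {x z : V} (hxz : z ∈ nb r x) : (nb r x ∩ nb r z).card ≤ 3 := by
  by_contra hc
  obtain ⟨a, ha⟩ : (nb r x ∩ nb r z).Nonempty := Finset.card_pos.1 (by omega)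
  obtain ⟨b, hb, c, hc', d, hd, hbc, hbd, hcd⟩ := three (show 3 ≤ ((nb r x ∩ nb r z).erase a).card by
    rw [Finset.card_erase_of_mem ha]; omega)
  have hbl : ∀ u ∈ nb r x ∩ nb r z, ∀ v ∈ nb r x ∩ nb r z, u ≠ v → ¬ r u v := by
    intro u hu v hv huv
    rw [Finset.mem_inter, mem_nb, mem_nb] at hu hv
    rw [mem_nb] at hxz
    exact nb_T3 h x z (mem_nb.2 hxz) u (mem_nb.2 hu.1) v (mem_nb.2 hv.1) (Ne.symm hu.2.1)
      (Ne.symm hv.2.1) huv hu.2.2 hv.2.2
  rw [Finset.mem_erase] at hb hc' hd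
  have f : ∀ e, e ≠ a ∧ e ∈ nb r x ∩ nb r z → e ∈ nb (co r) a := fun e he =>
    mem_nb.2 ⟨he.1, hbl a ha e he.2 (Ne.symm he.1)⟩
  exact nb_T3 h' a b (f b hb) c (f c hc') d (f d hd) hbc hbd hcd (hbl b hb.2 c hc'.2 hbc)
    (hbl b hb.2 d hd.2 hbd) (hbl c hc'.2 d hd.2 hcd)

/-- all vertices are neighbours of `x` or `z`, or blue neighbours of both, or `x` or `z` -/
theorem cod_blue (hr : ∀ a b, r a b → r b a) {x z : V} (hxz : z ∈ nb (co r) x)
    (hv : ∀ w, (nb r w).card = 8) (hV : Fintype.card V = 17) :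
    (nb r x ∩ nb r z).card = 1 + (nb (co r) x ∩ nb (co r) z).card := by
  rw [mem_nb] at hxz
  have e1 : (Finset.univ : Finset V) =
      (nb r x ∪ nb r z) ∪ ((nb (co r) x ∩ nb (co r) z) ∪ {x, z}) := by
    ext w
    simp only [Finset.mem_univ, Finset.mem_union, Finset.mem_inter, mem_nb, co, Finset.mem_insert,
      Finset.mem_singleton, true_iff]
    tauto
  have hzx : ¬ r z x := fun h => hxz.2 (hr _ _ h)
  have d1 : Disjoint (nb r x ∪ nb r z) ((nb (co r) x ∩ nb (co r) z) ∪ {x, z}) := by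
    rw [Finset.disjoint_left]
    intro w hw hw'
    simp only [Finset.mem_union, Finset.mem_inter, mem_nb, co, Finset.mem_insert,
      Finset.mem_singleton] at hw hw'
    rcases hw' with h | rfl | rfl
    · tauto
    · rcases hw with h | h
      · exact h.1 rfl
      · exact hzx h.2
    · rcases hw with h | h
      · exact hxz.2 h.2
      · exact h.1 rfl
  have d2 : Disjoint (nb (co r) x ∩ nb (co r) z) {x, z} := by
    rw [Finset.disjoint_left]
    intro w hw hw'
    simp only [Finset.mem_inter, mem_nb, Finset.mem_insert, Finset.mem_singleton] at hw hw'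
    rcases hw' with rfl | rfl
    · exact hw.1.1 rfl
    · exact hw.2.1 rfl
  have c1 := congrArg Finset.card e1
  rw [Finset.card_union_of_disjoint d1, Finset.card_union_of_disjoint d2, Finset.card_univ, hV,
    Finset.card_pair (Ne.symm hxz.1)] at c1
  have c2 := Finset.card_union_add_card_inter (nb r x) (nb r z)
  rw [hv, hv] at c2
  omega

theorem nb_comm (hr : ∀ a b, r a b → r b a) {x z : V} : z ∈ nb r x ↔ x ∈ nb r z := by
  rw [mem_nb, mem_nb]
  exact ⟨fun h => ⟨Ne.symm h.1, hr _ _ h.2⟩, fun h => ⟨Ne.symm h.1, hr _ _ h.2⟩⟩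

/-- a set of blue neighbours without blue pairs has at most three elements, etc. -/
theorem cod_blue_le (h : T4 r Finset.univ)
    (h' : T4 (co r) Finset.univ) {x z : V} (hxz : z ∈ nb (co r) x) :
    (nb (co r) x ∩ nb (co r) z).card ≤ 3 :=
  cod_red h' (by rw [co_co]; exact h) hxz

theorem cod_sum (hr : ∀ a b, r a b → r b a) (hv : ∀ w, (nb r w).card = 8) (x : V) :
    ∑ z ∈ Finset.univ.erase x, (nb r x ∩ nb r z).card = 56 := by
  have h1 := Finset.sum_card_bipartiteAbove_eq_sum_card_bipartiteBelow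
    (s := Finset.univ.erase x) (t := nb r x) (fun z w => w ∈ nb r z)
  have e1 : ∀ z, (nb r x).bipartiteAbove (fun z w => w ∈ nb r z) z = nb r x ∩ nb r z := by
    intro z
    ext w
    simp [Finset.bipartiteAbove]
  have e2 : ∀ w ∈ nb r x, ((Finset.univ.erase x).bipartiteBelow (fun z w => w ∈ nb r z) w).card
      = 7 := by
    intro w hw
    have e3 : (Finset.univ.erase x).bipartiteBelow (fun z w => w ∈ nb r z) w = (nb r w).erase x := by
      ext z
      simp only [Finset.bipartiteBelow, Finset.mem_filter, Finset.mem_erase, Finset.mem_univ,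
        and_true]
      rw [nb_comm hr (x := z) (z := w)]
    rw [e3, Finset.card_erase_of_mem ((nb_comm hr).1 hw), hv]
  rw [Finset.sum_congr rfl (fun z _ => by rw [e1]), Finset.sum_congr rfl e2, Finset.sum_const,
    hv] at h1
  exact h1

/-- the colouring is strongly regular -/
theorem srg (hr : ∀ a b, r a b → r b a) (h : T4 r Finset.univ) (h' : T4 (co r) Finset.univ)
    (hV : Fintype.card V = 17) (x : V) : (∀ z ∈ nb r x, (nb r x ∩ nb r z).card = 3) ∧
      ∀ z ∈ nb (co r) x, (nb r x ∩ nb r z).card = 4 := by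
  have hv : ∀ w, (nb r w).card = 8 := fun w => (nb_card hr h h' hV w).1
  have hs := cod_sum hr hv x
  have hu : Finset.univ.erase x = nb r x ∪ nb (co r) x := by
    ext w
    simp only [Finset.mem_erase, Finset.mem_univ, and_true, Finset.mem_union, mem_nb, co]
    tauto
  have hd : Disjoint (nb r x) (nb (co r) x) := by
    rw [Finset.disjoint_left]
    intro w hw hw'
    rw [mem_nb] at hw hw'
    exact hw'.2 hw.2
  rw [hu, Finset.sum_union hd] at hs
  have b1 : ∀ z ∈ nb r x, (nb r x ∩ nb r z).card ≤ 3 := fun z hz => cod_red h h' hz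
  have b2 : ∀ z ∈ nb (co r) x, (nb r x ∩ nb r z).card ≤ 4 := by
    intro z hz
    have h1 := cod_blue hr hz hv hV
    have h2 := cod_blue_le h h' hz
    omega
  have s1 := Finset.sum_le_card_nsmul _ _ _ b1
  have s2 := Finset.sum_le_card_nsmul _ _ _ b2
  rw [(nb_card hr h h' hV x).1, smul_eq_mul] at s1
  rw [(nb_card hr h h' hV x).2, smul_eq_mul] at s2
  constructor
  · by_contra hcon
    push Not at hcon
    obtain ⟨z, hz, hz3⟩ := hcon
    have h1 : ∑ z ∈ nb r x, (nb r x ∩ nb r z).card < ∑ _z ∈ nb r x, 3 :=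
      Finset.sum_lt_sum b1 ⟨z, hz, lt_of_le_of_ne (b1 z hz) hz3⟩
    rw [Finset.sum_const, (nb_card hr h h' hV x).1, smul_eq_mul] at h1
    omega
  · by_contra hcon
    push Not at hcon
    obtain ⟨z, hz, hz3⟩ := hcon
    have h1 : ∑ z ∈ nb (co r) x, (nb r x ∩ nb r z).card < ∑ _z ∈ nb (co r) x, 4 :=
      Finset.sum_lt_sum b2 ⟨z, hz, lt_of_le_of_ne (b2 z hz) hz3⟩
    rw [Finset.sum_const, (nb_card hr h h' hV x).2, smul_eq_mul] at h1
    omega

/-- for a blue pair `x`, `y` and a common red neighbour `t` -/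
theorem bal (hr : ∀ a b, r a b → r b a) (h : T4 r Finset.univ) (h' : T4 (co r) Finset.univ)
    (hV : Fintype.card V = 17) {x y t : V} (hxy : y ∈ nb (co r) x) (ht : t ∈ nb r x ∩ nb r y) :
    (nb r t ∩ (nb (co r) x ∩ nb (co r) y)).card = (nb r t ∩ (nb r x ∩ nb r y)).card := by
  have hv : ∀ w, (nb r w).card = 8 := fun w => (nb_card hr h h' hV w).1
  rw [Finset.mem_inter] at ht
  have k1 := (srg hr h h' hV x).1 t ht.1
  have k2 := (srg hr h h' hV y).1 t ht.2
  have htx := (nb_comm hr).1 ht.1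
  have hty := (nb_comm hr).1 ht.2
  rw [mem_nb] at hxy htx hty
  have hyx : ¬ r y x := fun h => hxy.2 (hr _ _ h)
  have e1 : nb r t = ((nb r t ∩ nb r x) ∪ (nb r t ∩ nb r y)) ∪
      ((nb r t ∩ (nb (co r) x ∩ nb (co r) y)) ∪ {x, y}) := by
    ext w
    simp only [Finset.mem_union, Finset.mem_inter, mem_nb, co, Finset.mem_insert,
      Finset.mem_singleton]
    constructor
    · intro hw
      by_cases h1 : w = x
      · right; right; left; exact h1
      by_cases h2 : w = y
      · right; right; right; exact h2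
      tauto
    · rintro ((hw | hw) | (hw | rfl | rfl))
      · exact hw.1
      · exact hw.1
      · exact hw.1
      · exact htx
      · exact hty
  have d1 : Disjoint ((nb r t ∩ nb r x) ∪ (nb r t ∩ nb r y))
      ((nb r t ∩ (nb (co r) x ∩ nb (co r) y)) ∪ {x, y}) := by
    rw [Finset.disjoint_left]
    intro w hw hw'
    simp only [Finset.mem_union, Finset.mem_inter, mem_nb, co, Finset.mem_insert,
      Finset.mem_singleton] at hw hw'
    rcases hw' with h | rfl | rfl
    · tauto
    · rcases hw with h | h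
      · exact h.2.1 rfl
      · exact hyx h.2.2
    · rcases hw with h | h
      · exact hxy.2 h.2.2
      · exact h.2.1 rfl
  have d2 : Disjoint (nb r t ∩ (nb (co r) x ∩ nb (co r) y)) {x, y} := by
    rw [Finset.disjoint_left]
    intro w hw hw'
    simp only [Finset.mem_inter, mem_nb, Finset.mem_insert, Finset.mem_singleton] at hw hw'
    rcases hw' with rfl | rfl
    · exact hw.2.1.1 rfl
    · exact hw.2.2.1 rfl
  have c1 := congrArg Finset.card e1
  rw [Finset.card_union_of_disjoint d1, Finset.card_union_of_disjoint d2, hv,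
    Finset.card_pair (Ne.symm hxy.1)] at c1
  have c2 := Finset.card_union_add_card_inter (nb r t ∩ nb r x) (nb r t ∩ nb r y)
  have e3 : (nb r t ∩ nb r x) ∩ (nb r t ∩ nb r y) = nb r t ∩ (nb r x ∩ nb r y) := by
    ext w
    simp only [Finset.mem_inter]
    tauto
  rw [e3, Finset.inter_comm (nb r t) (nb r x), Finset.inter_comm (nb r t) (nb r y), k1, k2] at c2
  rw [Finset.inter_comm (nb r t) (nb r x), Finset.inter_comm (nb r t) (nb r y)] at c1
  omega

/-- NO FLIP: the red pairs among the common red neighbours of a blue pair have no common vertex -/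
theorem no_star (hr : ∀ a b, r a b → r b a) (h : T4 r Finset.univ) (h' : T4 (co r) Finset.univ)
    (hV : Fintype.card V = 17) {x y w : V} (hxy : y ∈ nb (co r) x) (hw : w ∈ nb r x ∩ nb r y)
    (hT : ∀ c ∈ (nb r x ∩ nb r y).erase w, ∀ d ∈ (nb r x ∩ nb r y).erase w, c ≠ d → ¬ r c d) :
    False := by
  obtain ⟨W, hW⟩ : ∃ W, W = nb r x ∩ nb r y := ⟨_, rfl⟩
  obtain ⟨U, hU⟩ : ∃ U, U = nb (co r) x ∩ nb (co r) y := ⟨_, rfl⟩
  have hv : ∀ w, (nb r w).card = 8 := fun w => (nb_card hr h h' hV w).1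
  have hW4 : W.card = 4 := by rw [hW]; exact (srg hr h h' hV x).2 y hxy
  have hU3 : U.card = 3 := by
    have h1 := cod_blue hr hxy hv hV
    rw [← hW, ← hU, hW4] at h1
    omega
  have hbal : ∀ t ∈ W, (nb r t ∩ U).card = (nb r t ∩ W).card := by
    intro t ht
    rw [hU, hW]
    exact bal hr h h' hV hxy (hW ▸ ht)
  rw [← hW] at hw hT
  obtain ⟨T, hTd⟩ : ∃ T, T = W.erase w := ⟨_, rfl⟩
  rw [← hTd] at hT
  have hT3 : T.card = 3 := by
    rw [hTd, Finset.card_erase_of_mem hw, hW4]
  -- every element of `U` has a red neighbour in `T`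
  have hUT : ∀ u ∈ U, 1 ≤ (nb r u ∩ T).card := by
    intro u hu
    by_contra hcon
    have h0 : nb r u ∩ T = ∅ := Finset.card_eq_zero.1 (by omega)
    obtain ⟨b, hb, c, hc, d, hd, hbc, hbd, hcd⟩ := three hT3.ge
    have f : ∀ e ∈ T, e ∈ nb (co r) u := by
      intro e he
      have h1 : e ≠ u := by
        rintro rfl
        rw [hTd, Finset.mem_erase, hW, Finset.mem_inter, mem_nb] at he
        rw [hU, Finset.mem_inter, mem_nb] at hu
        exact hu.1.2 he.2.1.2
      refine mem_nb.2 ⟨h1, fun hre => ?_⟩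
      have : e ∈ nb r u ∩ T := Finset.mem_inter.2 ⟨mem_nb.2 ⟨h1, hre⟩, he⟩
      rw [h0] at this
      exact absurd this (Finset.notMem_empty e)
    exact nb_T3 h' u b (f b hb) c (f c hc) d (f d hd) hbc hbd hcd (hT b hb c hc hbc)
      (hT b hb d hd hbd) (hT c hc d hd hcd)
  -- double counting
  have hcount : ∑ t ∈ T, (nb r t ∩ U).card = ∑ u ∈ U, (nb r u ∩ T).card := by
    have h1 := Finset.sum_card_bipartiteAbove_eq_sum_card_bipartiteBelow
      (s := T) (t := U) (fun t u => u ∈ nb r t)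
    have e1 : ∀ t ∈ T, (U.bipartiteAbove (fun t u => u ∈ nb r t) t).card = (nb r t ∩ U).card := by
      intro t _
      congr 1
      ext u
      simp only [Finset.bipartiteAbove, Finset.mem_filter, Finset.mem_inter]
      tauto
    have e2 : ∀ u ∈ U, (T.bipartiteBelow (fun t u => u ∈ nb r t) u).card = (nb r u ∩ T).card := by
      intro u _
      congr 1
      ext t
      simp only [Finset.bipartiteBelow, Finset.mem_filter, Finset.mem_inter]
      rw [nb_comm hr (x := t) (z := u)]
      tauto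
    rw [Finset.sum_congr rfl e1, Finset.sum_congr rfl e2] at h1
    exact h1
  have hTW : ∀ t ∈ T, nb r t ∩ W ⊆ {w} := by
    intro t ht v hv'
    rw [Finset.mem_inter] at hv'
    rw [Finset.mem_singleton]
    by_contra hvw
    have hvT : v ∈ T := by
      rw [hTd, Finset.mem_erase]
      exact ⟨hvw, hv'.2⟩
    have h1 := mem_nb.1 hv'.1
    exact hT t ht v hvT (Ne.symm h1.1) h1.2
  have hle : ∀ t ∈ T, (nb r t ∩ U).card ≤ 1 := by
    intro t ht
    have ht' : t ∈ W := by
      rw [hTd] at ht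
      exact Finset.mem_of_mem_erase ht
    rw [hbal t ht']
    exact (Finset.card_le_card (hTW t ht)).trans (Finset.card_singleton w).le
  have hall : ∀ t ∈ T, (nb r t ∩ U).card = 1 := by
    by_contra hcon
    push Not at hcon
    obtain ⟨t, ht, ht1⟩ := hcon
    have h1 : ∑ t ∈ T, (nb r t ∩ U).card < ∑ _t ∈ T, 1 :=
      Finset.sum_lt_sum hle ⟨t, ht, lt_of_le_of_ne (hle t ht) ht1⟩
    have h2 : ∑ _u ∈ U, 1 ≤ ∑ u ∈ U, (nb r u ∩ T).card := Finset.sum_le_sum hUT
    rw [Finset.sum_const, smul_eq_mul, hT3] at h1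
    rw [Finset.sum_const, smul_eq_mul, hU3] at h2
    omega
  have hTw : T ⊆ nb r w := by
    intro t ht
    have ht' : t ∈ W := by
      rw [hTd] at ht
      exact Finset.mem_of_mem_erase ht
    have h1 := hall t ht
    rw [hbal t ht'] at h1
    obtain ⟨v, hv'⟩ := Finset.card_eq_one.1 h1
    have h2 : v ∈ nb r t ∩ W := by rw [hv']; exact Finset.mem_singleton_self v
    have h3 := Finset.mem_singleton.1 (hTW t ht h2)
    rw [h3, Finset.mem_inter] at h2
    exact (nb_comm hr).1 h2.1
  have hwU : U ⊆ nb r w := by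
    have h1 : T ⊆ nb r w ∩ W := by
      intro t ht
      refine Finset.mem_inter.2 ⟨hTw ht, ?_⟩
      rw [hTd] at ht
      exact Finset.mem_of_mem_erase ht
    have h2 := Finset.card_le_card h1
    rw [hT3, ← hbal w hw] at h2
    have h3 : nb r w ∩ U = U := Finset.eq_of_subset_of_card_le Finset.inter_subset_right (by omega)
    rw [← h3]
    exact Finset.inter_subset_left
  obtain ⟨b, hb, c, hc, d, hd, hbc, hbd, hcd⟩ := three hU3.ge
  have hred : ∀ u ∈ U, ∀ v ∈ U, u ≠ v → r u v := by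
    intro u hu v hv' huv
    by_contra hn
    rw [hU, Finset.mem_inter] at hu hv'
    have h1 := mem_nb.1 hu.2
    have h2 := mem_nb.1 hv'.2
    exact nb_T3 h' x y hxy u hu.1 v hv'.1 (Ne.symm h1.1) (Ne.symm h2.1) huv h1.2 h2.2 hn
  exact nb_T3 h w b (hwU hb) c (hwU hc) d (hwU hd) hbc hbd hcd (hred b hb c hc hbc)
    (hred b hb d hd hbd) (hred c hc d hd hcd)

/-- a way to prove `T4` -/
theorem t4_intro (h : ∀ a b c d, b ≠ a → c ≠ a → d ≠ a → b ≠ c → b ≠ d → c ≠ d → r a b → r a c →
    r a d → r b c → r b d → ¬ r c d) : T4 r Finset.univ := by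
  intro a _ b hb c hc d hd hbc hbd hcd h1 h2
  rw [Finset.mem_filter] at hb hc hd
  exact h a b c d hb.2.1 hc.2.1 hd.2.1 hbc hbd hcd hb.2.2 hc.2.2 hd.2.2 h1 h2

/-- a blue pair has a common red neighbour -/
theorem ex_common (hr : ∀ a b, r a b → r b a) (h : T4 r Finset.univ) (h' : T4 (co r) Finset.univ)
    (hV : Fintype.card V = 17) {x y : V} (hxy : y ∈ nb (co r) x) :
    ∃ w, w ∈ nb r x ∧ w ∈ nb r y := by
  have h1 := (srg hr h h' hV x).2 y hxy
  obtain ⟨w, hw⟩ : (nb r x ∩ nb r y).Nonempty := Finset.card_pos.1 (by omega)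
  exact ⟨w, Finset.mem_inter.1 hw⟩

/-- the red pairs among the common red neighbours of a blue pair have no common vertex -/
theorem no_star' (hr : ∀ a b, r a b → r b a) (h : T4 r Finset.univ) (h' : T4 (co r) Finset.univ)
    (hV : Fintype.card V = 17) {x y w : V} (hxy : y ∈ nb (co r) x) (hx : w ∈ nb r x)
    (hy : w ∈ nb r y)
    (hT : ∀ c d, c ∈ nb r x → c ∈ nb r y → d ∈ nb r x → d ∈ nb r y → c ≠ w → d ≠ w → c ≠ d →
      ¬ r c d) : False := by
  refine no_star hr h h' hV hxy (Finset.mem_inter.2 ⟨hx, hy⟩) ?_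
  intro c hc d hd hcd
  rw [Finset.mem_erase, Finset.mem_inter] at hc hd
  exact hT c d hc.2.1 hc.2.2 hd.2.1 hd.2.2 hc.1 hd.1 hcd

end seventeen

end Pool.Agent.H70.CG
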