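import Mathlib

/-!
# Maker-Maker games on a finite board: drawn plays (MP_9b343c_co)

`Wins E H P Q`: the player to move owns `P`, the other player owns `Q`, the board is `E` and the
winning sets are the sets with the property `H`; the player to move can force to be the first to
own a winning set. If the first player does not win from the start there is a drawn play, and its
last moves give a colouring with a pair which can be exchanged.
-/

set_option autoImplicit false

namespace Pool.Agent.H70.CG

variable {α : Type} [DecidableEq α]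

/-- The board is `E`, the player to move owns `P`, the other player owns `Q`; a player who owns a
set with the property `H` has won. The player to move can force a win: either she wins with one
move, or she has a move after which a reply is possible, no reply wins for the other player, and
after every reply she can force a win. -/
inductive Wins (E : Finset α) (H : Finset α → Prop) : Finset α → Finset α → Prop
  | now (P Q : Finset α) (e : α) (he : e ∈ E) (hP : e ∉ P) (hQ : e ∉ Q)
      (h : H (insert e P)) : Wins E H P Q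
  | step (P Q : Finset α) (e : α) (he : e ∈ E) (hP : e ∉ P) (hQ : e ∉ Q)
      (hr : ∃ f ∈ E, f ∉ insert e P ∧ f ∉ Q)
      (hn : ∀ f ∈ E, f ∉ insert e P → f ∉ Q → ¬ H (insert f Q))
      (h : ∀ f ∈ E, f ∉ insert e P → f ∉ Q → Wins E H (insert e P) (insert f Q)) :
      Wins E H P Q

variable {E : Finset α} {H : Finset α → Prop} {P Q P' Q' R B : Finset α}

private theorem disj_ins {e f : α} {P Q : Finset α} (h : Disjoint P Q) (he : e ∉ Q)
    (hf : f ∉ insert e P) : Disjoint (insert e P) (insert f Q) := by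
  rw [Finset.disjoint_insert_left, Finset.disjoint_insert_right]
  rw [Finset.mem_insert, not_or] at hf
  refine ⟨?_, hf.2, h⟩
  rw [Finset.mem_insert, not_or]
  exact ⟨fun h => hf.1 h.symm, he⟩

/-- the player to move can only force a win if she wins by taking all the rest -/
theorem wins_compl (hm : ∀ A B : Finset α, A ⊆ B → H A → H B) (h : Wins E H P Q)
    (hd : Disjoint P Q) (hE : P ⊆ E) : H (E \ Q) := by
  induction h with
  | now P Q e he hP hQ h =>
    refine hm _ _ ?_ h
    intro x hx
    rcases Finset.mem_insert.1 hx with rfl | hx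
    · exact Finset.mem_sdiff.2 ⟨he, hQ⟩
    · exact Finset.mem_sdiff.2 ⟨hE hx, fun hxQ => Finset.disjoint_left.1 hd hx hxQ⟩
  | step P Q e he hP hQ hr hn h ih =>
    obtain ⟨f, hf, hfP, hfQ⟩ := hr
    refine hm _ _ ?_ (ih f hf hfP hfQ (disj_ins hd hQ hfP) (Finset.insert_subset he hE))
    exact Finset.sdiff_subset_sdiff subset_rfl (Finset.subset_insert _ _)

/-- there is a free place unless the larger set has won already -/
private theorem free_ex (hm : ∀ A B : Finset α, A ⊆ B → H A → H B) (h : H (E \ Q))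
    (hQ : Q' ⊆ Q) (hP : ¬ H P') : ∃ e ∈ E, e ∉ P' ∧ e ∉ Q' := by
  by_contra hno
  push Not at hno
  refine hP (hm _ _ ?_ h)
  intro x hx
  rw [Finset.mem_sdiff] at hx
  by_contra hxP
  exact hx.2 (hQ (hno x hx.1 hxP))

/-- more own places and fewer places of the other player do not hurt -/
theorem wins_mono (hm : ∀ A B : Finset α, A ⊆ B → H A → H B) (h : Wins E H P Q)
    (hd : Disjoint P Q) (hE : P ⊆ E) : ∀ P' Q' : Finset α, P ⊆ P' → P' ⊆ E → Q' ⊆ Q →
      Disjoint P' Q' → ¬ H P' → Wins E H P' Q' := by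
  induction h with
  | now P Q e he hP hQ h =>
    intro P' Q' h1 h2 h3 h4 h5
    by_cases heP : e ∈ P'
    · exact absurd (hm _ _ (Finset.insert_subset heP h1) h) h5
    · exact Wins.now P' Q' e he heP (fun h => hQ (h3 h))
        (hm _ _ (Finset.insert_subset_insert e h1) h)
  | step P Q e he hP hQ hr hn h ih =>
    intro P' Q' h1 h2 h3 h4 h5
    have hc : H (E \ Q) := wins_compl hm (Wins.step P Q e he hP hQ hr hn h) hd hE
    obtain ⟨d, hdE, hdP, hdQ, hsub⟩ : ∃ d ∈ E, d ∉ P' ∧ d ∉ Q' ∧ insert e P ⊆ insert d P' := by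
      by_cases heP : e ∈ P'
      · obtain ⟨d, hd1, hd2, hd3⟩ := free_ex hm hc h3 h5
        exact ⟨d, hd1, hd2, hd3, (Finset.insert_subset heP h1).trans (Finset.subset_insert _ _)⟩
      · exact ⟨e, he, heP, fun h => hQ (h3 h), Finset.insert_subset_insert e h1⟩
    by_cases hw : H (insert d P')
    · exact Wins.now P' Q' d hdE hdP hdQ hw
    obtain ⟨f0, hf0, hf0P, hf0Q⟩ := hr
    have hdE' : insert d P' ⊆ E := Finset.insert_subset hdE h2
    refine Wins.step P' Q' d hdE hdP hdQ (free_ex hm hc h3 hw) ?_ ?_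
    · intro f hf hfP hfQ hH
      by_cases hfQ2 : f ∈ Q
      · exact hn f0 hf0 hf0P hf0Q (hm _ _ ((Finset.insert_subset hfQ2 h3).trans
          (Finset.subset_insert _ _)) hH)
      · exact hn f hf (fun h => hfP (hsub h)) hfQ2 (hm _ _ (Finset.insert_subset_insert f h3) hH)
    · intro f hf hfP hfQ
      by_cases hfQ2 : f ∈ Q
      · exact ih f0 hf0 hf0P hf0Q (disj_ins hd hQ hf0P) (Finset.insert_subset he hE) _ _ hsub hdE'
          ((Finset.insert_subset hfQ2 h3).trans (Finset.subset_insert _ _))
          (disj_ins h4 hdQ hfP) hw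
      · exact ih f hf (fun h => hfP (hsub h)) hfQ2 (disj_ins hd hQ (fun h => hfP (hsub h)))
          (Finset.insert_subset he hE) _ _ hsub hdE'
          (Finset.insert_subset_insert f h3) (disj_ins h4 hdQ hfP) hw

/-- a drawn position, the owner of `R` is to move -/
structure Drawn (E : Finset α) (H : Finset α → Prop) (R B : Finset α) : Prop where
  dis : Disjoint R B
  rE : R ⊆ E
  bE : B ⊆ E
  nR : ¬ H R
  nB : ¬ H B
  nW : ¬ Wins E H R B
  nL : ¬ ((∃ e ∈ E, e ∉ R ∧ e ∉ B) ∧ ∀ e ∈ E, e ∉ R → e ∉ B → ¬ H (insert e R) ∧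
    Wins E H B (insert e R))

/-- STRATEGY STEALING: if the first player does not win the start is a drawn position -/
theorem drawn_start (hm : ∀ A B : Finset α, A ⊆ B → H A → H B) (h0 : ¬ H ∅)
    (hw : ¬ Wins E H ∅ ∅) : Drawn E H ∅ ∅ := by
  refine ⟨Finset.disjoint_empty_left _, Finset.empty_subset _, Finset.empty_subset _, h0, h0, hw,
    ?_⟩
  rintro ⟨⟨e, he, h1, h2⟩, h⟩
  exact hw (wins_mono hm (h e he h1 h2).2 (Finset.disjoint_empty_left _) (Finset.empty_subset _)
    ∅ ∅ subset_rfl (Finset.empty_subset _) (Finset.empty_subset _)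
    (Finset.disjoint_empty_left _) h0)

theorem Drawn.free (h : Drawn E H R B) {e : α} (he : e ∈ E) (h1 : e ∉ R) (h2 : e ∉ B) :
    ¬ H (insert e R) := fun hH => h.nW (Wins.now R B e he h1 h2 hH)

/-- one round of a drawn play -/
theorem Drawn.next (h : Drawn E H R B) (h2 : 2 ≤ (E \ (R ∪ B)).card) :
    ∃ a b, a ∈ E \ (R ∪ B) ∧ b ∈ E \ (R ∪ B) ∧ a ≠ b ∧ Drawn E H (insert a R) (insert b B) := by
  obtain ⟨e0, he0⟩ : (E \ (R ∪ B)).Nonempty := Finset.card_pos.1 (by omega)
  rw [Finset.mem_sdiff, Finset.mem_union, not_or] at he0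
  have h3 := h.nL
  rw [not_and] at h3
  have h4 := h3 ⟨e0, he0⟩
  push Not at h4
  obtain ⟨a, haE, haR, haB, ha⟩ := h4
  have hnH := h.free haE haR haB
  have hnW := ha hnH
  have hamem : a ∈ E \ (R ∪ B) := by
    rw [Finset.mem_sdiff, Finset.mem_union, not_or]
    exact ⟨haE, haR, haB⟩
  obtain ⟨f0, hf0⟩ : ((E \ (R ∪ B)).erase a).Nonempty := by
    apply Finset.card_pos.1
    rw [Finset.card_erase_of_mem hamem]
    omega
  have hf0' : f0 ∈ E ∧ f0 ∉ insert a R ∧ f0 ∉ B := by
    rw [Finset.mem_erase, Finset.mem_sdiff, Finset.mem_union, not_or] at hf0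
    refine ⟨hf0.2.1, ?_, hf0.2.2.2⟩
    rw [Finset.mem_insert, not_or]
    exact ⟨hf0.1, hf0.2.2.1⟩
  have hnB : ∀ f ∈ E, f ∉ insert a R → f ∉ B → ¬ H (insert f B) := fun f hf hfR hfB hH =>
    hnW (Wins.now B (insert a R) f hf hfB hfR hH)
  obtain ⟨b, hbE, hbR, hbB, hbW⟩ : ∃ b ∈ E, b ∉ insert a R ∧ b ∉ B ∧
      ¬ Wins E H (insert a R) (insert b B) := by
    by_contra hno
    push Not at hno
    exact h.nW (Wins.step R B a haE haR haB ⟨f0, hf0'⟩ hnB hno)
  have hbR' := hbR
  rw [Finset.mem_insert, not_or] at hbR'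
  refine ⟨a, b, hamem, ?_, fun hab => hbR'.1 hab.symm, ?_⟩
  · rw [Finset.mem_sdiff, Finset.mem_union, not_or]
    exact ⟨hbE, hbR'.2, hbB⟩
  refine ⟨disj_ins h.dis haB hbR, Finset.insert_subset haE h.rE, Finset.insert_subset hbE h.bE,
    hnH, hnB b hbE hbR hbB, hbW, ?_⟩
  rintro ⟨⟨e, he, h5, h6⟩, h7⟩
  refine hnW (Wins.step B (insert a R) b hbE hbB hbR ⟨e, he, h6, h5⟩ ?_ ?_)
  · intro f hf hfB hfR
    exact (h7 f hf hfR hfB).1
  · intro f hf hfB hfR
    exact (h7 f hf hfR hfB).2

private theorem card_next {a b : α} (ha : a ∈ E \ (R ∪ B)) (hb : b ∈ E \ (R ∪ B)) (hab : a ≠ b) :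
    (E \ (insert a R ∪ insert b B)).card = (E \ (R ∪ B)).card - 2 := by
  have h1 : E \ (insert a R ∪ insert b B) = ((E \ (R ∪ B)).erase a).erase b := by
    ext x
    simp only [Finset.mem_sdiff, Finset.mem_union, Finset.mem_insert, Finset.mem_erase]
    tauto
  rw [h1, Finset.card_erase_of_mem (Finset.mem_erase.2 ⟨fun h => hab h.symm, hb⟩),
    Finset.card_erase_of_mem ha]
  omega

/-- a drawn position has a drawn colouring of the board -/
theorem Drawn.colour : ∀ (n : ℕ) {R B : Finset α}, Drawn E H R B → (E \ (R ∪ B)).card = n →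
    ∃ C ⊆ E, ¬ H C ∧ ¬ H (E \ C) := by
  intro n
  induction n using Nat.strong_induction_on with
  | _ n ih =>
    intro R B h hn
    by_cases h2 : 2 ≤ n
    · obtain ⟨a, b, ha, hb, hab, hD⟩ := h.next (by omega)
      exact ih (n - 2) (by omega) hD (by rw [card_next ha hb hab, hn])
    · obtain hn0 | hn1 : n = 0 ∨ n = 1 := by omega
      · have h3 : E ⊆ R ∪ B := Finset.sdiff_eq_empty_iff_subset.1 (Finset.card_eq_zero.1 (by omega))
        refine ⟨R, h.rE, h.nR, ?_⟩
        have h4 : E \ R = B := by
          ext x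
          rw [Finset.mem_sdiff]
          constructor
          · rintro ⟨hx, hxR⟩
            rcases Finset.mem_union.1 (h3 hx) with h5 | h5
            · exact absurd h5 hxR
            · exact h5
          · intro hx
            exact ⟨h.bE hx, fun hxR => Finset.disjoint_left.1 h.dis hxR hx⟩
        rw [h4]
        exact h.nB
      · obtain ⟨a, ha⟩ := Finset.card_eq_one.1 (hn.trans hn1)
        have ha' : a ∈ E \ (R ∪ B) := by rw [ha]; exact Finset.mem_singleton_self a
        have ha2 := ha'
        rw [Finset.mem_sdiff, Finset.mem_union, not_or] at ha2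
        refine ⟨insert a R, Finset.insert_subset ha2.1 h.rE, h.free ha2.1 ha2.2.1 ha2.2.2, ?_⟩
        have h4 : E \ insert a R = B := by
          ext x
          rw [Finset.mem_sdiff, Finset.mem_insert, not_or]
          constructor
          · rintro ⟨hx, hxa, hxR⟩
            by_contra hxB
            apply hxa
            have : x ∈ E \ (R ∪ B) := by
              rw [Finset.mem_sdiff, Finset.mem_union, not_or]
              exact ⟨hx, hxR, hxB⟩
            rw [ha] at this
            exact Finset.mem_singleton.1 this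
          · intro hx
            refine ⟨h.bE hx, ?_, fun hxR => Finset.disjoint_left.1 h.dis hxR hx⟩
            rintro rfl
            exact ha2.2.2 hx
        rw [h4]
        exact h.nB

/-- the last round of a drawn play on a board with an even number of places -/
theorem Drawn.flip : ∀ (k : ℕ) {R B : Finset α}, Drawn E H R B → (E \ (R ∪ B)).card = 2 * k + 2 →
    R.card = B.card → ∃ C ⊆ E, ∃ a ∈ C, ∃ b ∈ E \ C, C.card = (E \ C).card ∧ ¬ H C ∧
      ¬ H (E \ C) ∧ ¬ H (insert b (C.erase a)) := by
  intro k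
  induction k with
  | zero =>
    intro R B h hn hc
    obtain ⟨a, b, ha, hb, hab, hD⟩ := h.next (by omega)
    have ha2 := ha
    have hb2 := hb
    rw [Finset.mem_sdiff, Finset.mem_union, not_or] at ha2 hb2
    have h4 : E \ insert a R = insert b B := by
      have h5 : (E \ (insert a R ∪ insert b B)).card = 0 := by
        rw [card_next ha hb hab, hn]
      have h6 : E ⊆ insert a R ∪ insert b B :=
        Finset.sdiff_eq_empty_iff_subset.1 (Finset.card_eq_zero.1 h5)
      ext x
      rw [Finset.mem_sdiff]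
      constructor
      · rintro ⟨hx, hxR⟩
        rcases Finset.mem_union.1 (h6 hx) with h5 | h5
        · exact absurd h5 hxR
        · exact h5
      · intro hx
        exact ⟨hD.bE hx, fun hxR => Finset.disjoint_left.1 hD.dis hxR hx⟩
    refine ⟨insert a R, hD.rE, a, Finset.mem_insert_self a R, b, ?_, ?_, hD.nR, ?_, ?_⟩
    · rw [h4]
      exact Finset.mem_insert_self b B
    · rw [h4, Finset.card_insert_of_notMem ha2.2.1, Finset.card_insert_of_notMem hb2.2.2, hc]
    · rw [h4]
      exact hD.nB
    · rw [Finset.erase_insert ha2.2.1]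
      exact h.free hb2.1 hb2.2.1 hb2.2.2
  | succ k ih =>
    intro R B h hn hc
    obtain ⟨a, b, ha, hb, hab, hD⟩ := h.next (by omega)
    have ha2 := ha
    have hb2 := hb
    rw [Finset.mem_sdiff, Finset.mem_union, not_or] at ha2 hb2
    refine ih hD ?_ ?_
    · rw [card_next ha hb hab, hn]
      omega
    · rw [Finset.card_insert_of_notMem ha2.2.1, Finset.card_insert_of_notMem hb2.2.2, hc]

end Pool.Agent.H70.CG
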